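import Pool.Agent.TH668.Link.Main

set_option autoImplicit false

namespace Pool.Agent.Results.MP_14e06f_lc.LockedNPHard

open Pool.Agent.NPC Pool.Agent.TH668.Link

/-- **Deciding whether a linkage is locked is NP-hard.**
The decision problem `Locked` asks, for `d ∈ {2,3}` and a linkage with rational lengths in binary,
whether the linkage is locked in `ℝ^d`; it is `NP`-hard under polynomial-time many-one reductions.
Moreover it remains `NP`-hard for `d = 2` and for linkages which have a configuration and are of a
very special form: a chain whose two ends are attached to the two vertices `p` and `w` of a rigid
frame consisting of seven bars (`lk`); in particular the number of bars is the number of vertices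
plus three. It also makes no difference whether a plane linkage is called locked if two
configurations with the same orientation of all cycles are not joined by a motion (`LockedPlane`),
or if in addition these two configurations are required to have the same cyclic order of the bars
around every vertex (`LockedEmb`): the two notions agree for the linkages produced. -/
theorem result : NPHardP Locked ∧
    ∀ A : Set (List Bool), InNP A → ∃ f : List Bool → Linkage,
      PolyTime (fun w => bits ((2 : ℕ), f w)) ∧ ∀ w, Valid (f w) ∧ (∃ q, IsConfig 2 (f w) q) ∧
        (∃ (n : ℕ) (a : ℕ → ℚ) (V z U b₁ b₂ : ℚ), f w = lk n a V z U b₁ b₂) ∧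
        (LockedPlane (f w) ↔ LockedEmb (f w)) ∧ (w ∈ A ↔ LockedPlane (f w)) :=
  main

end Pool.Agent.Results.MP_14e06f_lc.LockedNPHard
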